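import Pool.Agent.Helper95.PM.Stmts
import Pool.Agent.Helper81.PW.Com

/-! # Row TLOM (MP_56acfd_mp): the kinetic energy of a ground state of a molecule is not small -/

set_option autoImplicit false

namespace Pool.Agent.Helper95.PW

open MeasureTheory Filter

theorem TLOM74.pot_meas {M : ℕ} (X : Fin M → R3) (Z : Fin M → ℝ) : Measurable (pot X Z) := by
  unfold pot
  apply Finset.measurable_fun_sum
  intro j _
  exact (com_nr_meas.comp (measurable_id.sub_const (X j))).const_div (Z j)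

theorem TLOM74.hm_memLp (hI : ST_INTM) {n M : ℕ} (X : Fin M → R3) (Z : Fin M → ℝ)
    (v : Cf n → ℝ) (hv : ContDiff ℝ (⊤ : ℕ∞) v) (hc : HasCompactSupport v) :
    MemLp (hmM X Z v) 2 volume := by
  obtain ⟨_, _, i3, i4⟩ := hI n M X Z v v hv hc hv hc
  have m3 : Measurable (fun x : Cf n => ∑ k, pot X Z (x k)) := by
    apply Finset.measurable_fun_sum
    intro k _
    exact (TLOM74.pot_meas X Z).comp (measurable_pi_apply k)
  have a3 : MemLp (fun x : Cf n => (∑ k, pot X Z (x k)) * v x) 2 volume :=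
    (memLp_two_iff_integrable_sq
      (m3.mul hv.continuous.measurable).aestronglyMeasurable).2 i3
  have a4 : MemLp (fun x : Cf n => rep x * v x) 2 volume :=
    (memLp_two_iff_integrable_sq
      ((com_rep_meas n).mul hv.continuous.measurable).aestronglyMeasurable).2 i4
  have a5 : MemLp (fun x : Cf n => ∑ k, ∑ i, dv k i (dv k i v) x) 2 volume := by
    apply memLp_finsetSum
    intro k _
    apply memLp_finsetSum
    intro i _
    exact com_memLp _ (com_dv_smooth k i _ (com_dv_smooth k i v hv))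
      (com_dv_cs k i _ (com_dv_cs k i v hc))
  have e : hmM X Z v = fun x : Cf n => -(∑ k, ∑ i, dv k i (dv k i v) x) +
      (rep x * v x - (∑ k, pot X Z (x k)) * v x) := by
    funext x
    unfold hmM
    ring
  rw [e]
  exact a5.neg.add (a4.sub a3)

/-- the upper bound for the form by the residuum -/
theorem TLOM74.Q_le (hQ : ST_QHM) (hI : ST_INTM) {n M : ℕ} (X : Fin M → R3) (Z : Fin M → ℝ)
    (E : ℝ) (u : Wf n) (hu : Sm u) :
    QM X Z u ≤ E * sq u + sq u / 4 + resM X Z E u := by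
  obtain ⟨h1, h2⟩ := hQ n M X Z u u hu hu
  rw [h2, h1]
  unfold resM sq
  rw [Finset.mul_sum, Finset.sum_div, ← Finset.sum_add_distrib, ← Finset.sum_add_distrib]
  apply Finset.sum_le_sum
  intro s _
  have hu2 : MemLp (u s) 2 volume := com_memLp _ (hu s).1 (hu s).2
  have hh : MemLp (hmM X Z (u s)) 2 volume := TLOM74.hm_memLp hI X Z _ (hu s).1 (hu s).2
  have hd : MemLp (fun x => hmM X Z (u s) x - E * u s x) 2 volume := hh.sub (hu2.const_mul E)
  have i1 : Integrable (fun x => u s x ^ 2) := hu2.integrable_sq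
  have i2 : Integrable (fun x => (hmM X Z (u s) x - E * u s x) ^ 2) := hd.integrable_sq
  have i3 : Integrable (fun x => u s x * hmM X Z (u s) x) := hu2.integrable_mul hh
  have e1 : ∫ x, (E * u s x ^ 2 + u s x ^ 2 / 4 + (hmM X Z (u s) x - E * u s x) ^ 2) =
      E * (∫ x, u s x ^ 2) + (∫ x, u s x ^ 2) / 4 + ∫ x, (hmM X Z (u s) x - E * u s x) ^ 2 := by
    rw [integral_add, integral_add, integral_const_mul, integral_div]
    · exact i1.const_mul E
    · exact i1.div_const 4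
    · exact (i1.const_mul E).add (i1.div_const 4)
    · exact i2
  rw [← e1]
  apply integral_mono i3 (((i1.const_mul E).add (i1.div_const 4)).add i2)
  intro x
  show u s x * hmM X Z (u s) x ≤ E * u s x ^ 2 + u s x ^ 2 / 4 + (hmM X Z (u s) x - E * u s x) ^ 2
  nlinarith [sq_nonneg (u s x / 2 - (hmM X Z (u s) x - E * u s x))]

theorem TLOM74.one_pot (hI : ST_INTM) {n M : ℕ} (X : Fin M → R3) (Z : Fin M → ℝ) (u : Wf n)
    (hu : Sm u) : one (pot X Z) u = ∑ j, Z j * one (fun y => 1 / nr (y - X j)) u := by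
  have hint : ∀ (j : Fin M) (s : Fin n → Fin 2),
      Integrable (fun x : Cf n => Z j * ((∑ k, 1 / nr (x k - X j)) * u s x ^ 2)) := by
    intro j s
    have h := (hI n 1 (fun _ => X j) (fun _ => 1) (u s) (u s) (hu s).1 (hu s).2 (hu s).1
      (hu s).2).1
    have h2 : (fun x : Cf n => (∑ k, 1 / nr (x k - X j)) * u s x ^ 2) =
        fun x : Cf n => (∑ k, pot (fun _ : Fin 1 => X j) (fun _ => 1) (x k)) *
          (u s x * u s x) := by
      funext x
      rw [pow_two]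
      congr 1
      apply Finset.sum_congr rfl
      intro k _
      unfold pot
      rw [Finset.univ_unique, Finset.sum_singleton]
    have h3 : Integrable (fun x : Cf n => (∑ k, 1 / nr (x k - X j)) * u s x ^ 2) := by
      rw [h2]
      exact h
    exact h3.const_mul (Z j)
  have e1 : ∀ j : Fin M, Z j * one (fun y => 1 / nr (y - X j)) u =
      ∑ s, ∫ x : Cf n, Z j * ((∑ k, 1 / nr (x k - X j)) * u s x ^ 2) := by
    intro j
    unfold one
    rw [Finset.mul_sum]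
    apply Finset.sum_congr rfl
    intro s _
    rw [integral_const_mul]
  simp_rw [e1]
  rw [Finset.sum_comm]
  unfold one
  apply Finset.sum_congr rfl
  intro s _
  rw [← integral_finsetSum _ (fun j _ => hint j s)]
  apply integral_congr_ae
  filter_upwards with x
  unfold pot
  rw [Finset.sum_comm, Finset.sum_mul]
  apply Finset.sum_congr rfl
  intro j _
  rw [← mul_assoc, Finset.mul_sum]
  congr 1
  apply Finset.sum_congr rfl
  intro k _
  ring

theorem TLOM74.kinlow {n : ℕ} {C c a k q : ℝ} (hn : 1 ≤ n) (hC : 0 < C) (hc : 0 < c)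
    (hk : 0 ≤ k) (hq : 0 ≤ q) (h1 : c * q / 2 ≤ a)
    (h2 : a ≤ n * (C * (n : ℝ) ^ (1 / 6 : ℝ) * Real.sqrt k)) :
    (c / (2 * C)) ^ 2 * q ^ 2 ≤ (n : ℝ) ^ (7 / 3 : ℝ) * k := by
  have hn0 : (0 : ℝ) < n := by exact_mod_cast hn
  have e2 : (n : ℝ) ^ (7 / 3 : ℝ) = (n * (n : ℝ) ^ (1 / 6 : ℝ)) ^ 2 := by
    have e3 : n * (n : ℝ) ^ (1 / 6 : ℝ) = (n : ℝ) ^ (7 / 6 : ℝ) := by
      nth_rewrite 1 [← Real.rpow_one (n : ℝ)]
      rw [← Real.rpow_add hn0]
      norm_num
    rw [e3, ← Real.rpow_natCast, ← Real.rpow_mul hn0.le]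
    norm_num
  have h3 : c / (2 * C) * q ≤ n * (n : ℝ) ^ (1 / 6 : ℝ) * Real.sqrt k := by
    have h4 : c / (2 * C) * q = (c * q / 2) / C := by
      field_simp
    rw [h4, div_le_iff₀ hC]
    calc c * q / 2 ≤ n * (C * (n : ℝ) ^ (1 / 6 : ℝ) * Real.sqrt k) := h1.trans h2
      _ = _ := by ring
  calc (c / (2 * C)) ^ 2 * q ^ 2 = (c / (2 * C) * q) ^ 2 := by ring
    _ ≤ (n * (n : ℝ) ^ (1 / 6 : ℝ) * Real.sqrt k) ^ 2 := by
        apply pow_le_pow_left₀ _ h3
        positivity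
    _ = (n : ℝ) ^ (7 / 3 : ℝ) * k := by
        rw [mul_pow, Real.sq_sqrt hk, e2]

theorem st_TLOM (hTRIM : ST_TRIM) (hATTM : ST_ATTM) (hAPXM : ST_APXM) (hLMTM : ST_LMTM)
    (hQHM : ST_QHM) (hINTM : ST_INTM) : ST_TLOM := by
  obtain ⟨c, n0, hc, hT⟩ := hTRIM
  obtain ⟨C, hC, hA⟩ := hATTM
  obtain ⟨N, hN⟩ := exists_nat_gt (4 / c)
  refine ⟨(c / (2 * C)) ^ 2, max n0 (max 1 N), by positivity,
    (le_max_left _ _).trans (le_max_right _ _), ?_⟩
  intro n M X Z E φ G hn hM hZ hnM hG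
  have hn0 : n0 * M ≤ n := le_trans (Nat.mul_le_mul_right M (le_max_left _ _)) hnM
  have hn1 : 1 * M ≤ n :=
    le_trans (Nat.mul_le_mul_right M ((le_max_left _ _).trans (le_max_right _ _))) hnM
  have hnN : N * M ≤ n :=
    le_trans (Nat.mul_le_mul_right M ((le_max_right _ _).trans (le_max_right _ _))) hnM
  have hMr : (0 : ℝ) < M := by exact_mod_cast hM
  have hnr : (1 : ℝ) ≤ (n : ℝ) / M := by
    rw [le_div_iff₀ hMr]
    exact_mod_cast hn1
  have hX : 4 ≤ c * ((n : ℝ) / M) ^ (7 / 3 : ℝ) := by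
    have h1 : (n : ℝ) / M ≤ ((n : ℝ) / M) ^ (7 / 3 : ℝ) := by
      nth_rewrite 1 [← Real.rpow_one ((n : ℝ) / M)]
      exact Real.rpow_le_rpow_of_exponent_le hnr (by norm_num)
    have h2 : 4 / c ≤ (n : ℝ) / M := by
      refine hN.le.trans ?_
      rw [le_div_iff₀ hMr]
      exact_mod_cast hnN
    rw [div_le_iff₀ hc] at h2
    nlinarith
  obtain ⟨ψ, hψ1, hψ2, hψ3, hψ4⟩ := hT n M X Z hM hZ hn0
  have hE : E ≤ -(c * ((n : ℝ) / M) ^ (7 / 3 : ℝ)) := by
    have h1 := (hG.low ψ hψ1 hψ2).trans hψ4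
    exact le_of_mul_le_mul_right h1 hψ3
  refine ⟨by linarith, ?_⟩
  obtain ⟨u, hu⟩ := hAPXM n M X Z E φ G hG
  obtain ⟨l1, l2, -⟩ := hLMTM n M X Z E φ G u hG hu
  obtain ⟨hS, -, -, -, hR⟩ := hu
  have l3 : Tendsto (fun j => (n : ℝ) ^ (7 / 3 : ℝ) * kin (u j)) atTop
      (nhds ((n : ℝ) ^ (7 / 3 : ℝ) * kinG G)) := l2.const_mul _
  have eq14 : ((n : ℝ) / M) ^ (14 / 3 : ℝ) = (((n : ℝ) / M) ^ (7 / 3 : ℝ)) ^ 2 := by
    rw [← Real.rpow_natCast, ← Real.rpow_mul (by positivity)]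
    norm_num
  rw [eq14]
  refine ge_of_tendsto l3 ?_
  have ev1 : ∀ᶠ j in atTop, 3 / 4 < sq (u j) := l1.eventually (lt_mem_nhds (by norm_num))
  have ev2 : ∀ᶠ j in atTop, sq (u j) < 2 := l1.eventually (gt_mem_nhds (by norm_num))
  have ev3 : ∀ᶠ j in atTop, resM X Z E (u j) < 1 / 2 := hR.eventually (gt_mem_nhds (by norm_num))
  filter_upwards [ev1, ev2, ev3] with j a1 a2 a3
  have hq := TLOM74.Q_le hQHM hINTM X Z E (u j) (hS j).1
  have hk := com_kin_nonneg (u j)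
  have hp := com_pair_nonneg (u j)
  have hEs : E * sq (u j) ≤ -(c * ((n : ℝ) / M) ^ (7 / 3 : ℝ)) * (3 / 4) := by
    nlinarith
  have hQ1 : QM X Z (u j) ≤ -(c * ((n : ℝ) / M) ^ (7 / 3 : ℝ)) / 2 := by linarith
  have hb : one (pot X Z) (u j) ≤ n * (C * (n : ℝ) ^ (1 / 6 : ℝ) * Real.sqrt (kin (u j))) := by
    rw [TLOM74.one_pot hINTM X Z (u j) (hS j).1, ← hZ.2, Finset.sum_mul]
    apply Finset.sum_le_sum
    intro i _
    rw [hZ.2]
    exact mul_le_mul_of_nonneg_left (hA n (u j) (X i) hn (hS j).1 (hS j).2 a2.le) (hZ.1 i)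
  refine TLOM74.kinlow hn hC hc hk (by positivity) ?_ hb
  unfold QM at hQ1
  linarith

end Pool.Agent.Helper95.PW
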